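import Pool.Agent.Helper96.RK.E1

/-! Entropy library, module E5: push-forward and scaling. -/

namespace Pool.Agent.Helper70.RK

open Finset
open Pool.Agent.Helper69.RK

open Classical in
theorem e5_sum {Ω Ω' : Type} [Fintype Ω] [Fintype Ω'] (π : Ω' → Ω) (μ' : Ω' → ℝ) (F : Ω → ℝ) :
    ∑ ω, push π μ' ω * F ω = ∑ ω', μ' ω' * F (π ω') := by
  unfold push
  simp only [Finset.sum_mul]
  rw [Finset.sum_comm]
  refine Finset.sum_congr rfl (fun ω' _ => ?_)
  rw [Finset.sum_eq_single (π ω')]
  · simp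
  · intro ω _ hne
    rw [if_neg (fun h => hne h.symm), zero_mul]
  · intro h
    exact absurd (Finset.mem_univ _) h

theorem e5_pr {Ω Ω' α : Type} [Fintype Ω] [Fintype Ω'] (π : Ω' → Ω) (μ' : Ω' → ℝ) (f : Ω → α) (ω' : Ω') :
    pr (push π μ') f (π ω') = pr μ' (fun w => f (π w)) ω' := by
  classical
  rw [e1_pr_eq, e1_pr_eq]
  have h := e5_sum π μ' (fun ω => if f ω = f (π ω') then (1 : ℝ) else 0)
  have h1 : ∀ ω, (if f ω = f (π ω') then push π μ' ω else 0) =
      push π μ' ω * (if f ω = f (π ω') then (1 : ℝ) else 0) := fun ω => by split_ifs <;> simp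
  have h2 : ∀ w, (if f (π w) = f (π ω') then μ' w else 0) =
      μ' w * (if f (π w) = f (π ω') then (1 : ℝ) else 0) := fun w => by split_ifs <;> simp
  rw [Finset.sum_congr rfl (fun ω _ => h1 ω), h]
  exact (Finset.sum_congr rfl (fun w _ => h2 w)).symm

theorem st_E5 : ST_E5 := by
  refine ⟨?_, ?_⟩
  · intro Ω Ω' α γ _ _ μ' π f g hμ
    refine ⟨fun ω => ?_, ?_, ?_⟩
    · unfold push
      exact Finset.sum_nonneg (fun ω' _ => by
        split_ifs
        · exact hμ ω'
        · exact le_rfl)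
    · have h := e5_sum π μ' (fun _ => (1 : ℝ))
      simp only [mul_one] at h
      exact h
    · unfold CH
      rw [e5_sum π μ' (fun ω => Real.logb 2 (pr (push π μ') g ω) -
        Real.logb 2 (pr (push π μ') (fun ω' => (f ω', g ω')) ω))]
      refine Finset.sum_congr rfl (fun ω' _ => ?_)
      rw [e5_pr π μ' g ω', e5_pr π μ' (fun ω' => (f ω', g ω')) ω']
  · intro Ω α γ _ μ f g c hc hμ
    rcases hc.eq_or_lt with h0 | hpos
    · rw [← h0]
      unfold CH
      simp
    · unfold CH
      rw [Finset.mul_sum]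
      refine Finset.sum_congr rfl (fun ω _ => ?_)
      by_cases h0 : μ ω = 0
      · simp [h0]
      · have hpr : ∀ {β : Type} (h : Ω → β), pr (fun ω => c * μ ω) h ω = c * pr μ h ω := by
          intro β h
          unfold pr
          rw [Finset.mul_sum]
          refine Finset.sum_congr rfl (fun ω' _ => ?_)
          split_ifs <;> simp
        rw [hpr g, hpr (fun ω' => (f ω', g ω'))]
        rw [Real.logb_mul hpos.ne' (e1_pr_pos μ g hμ ω h0).ne',
          Real.logb_mul hpos.ne' (e1_pr_pos μ (fun ω' => (f ω', g ω')) hμ ω h0).ne']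
        ring

end Pool.Agent.Helper70.RK
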